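import Mathlib
import Pool.Agent.Helper38.SmQsC0

/-!
# Strongly multiple p-summing versus quasi-absolutely p-summing multilinear operators

For every real `p ≥ 1` and every `n ≥ 2` there is a bounded `n`-linear operator
`T : c₀ × ⋯ × c₀ → c₀` (real or complex scalars) which is `k`-absolutely `p`-summing for each
`k`, hence quasi-absolutely `p`-summing, but not strongly multiple `p`-summing.  So the two
classes are different for every `p ≥ 1` and every `n ≥ 2`.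
-/

set_option autoImplicit false

open scoped ENNReal NNReal ZeroAtInfty

namespace Pool.Agent.Results.MP_3dc8bf_an.QsNotSm

open Pool.Agent.Helper38

/-- `‖(x_j)‖_{w,p} = sup_{φ ∈ B_{E^*}} (∑_j |φ(x_j)|^p)^{1/p}` as an element of `[0,∞]`. -/
noncomputable def weakNorm (𝕜 : Type*) [RCLike 𝕜] {E : Type*} [NormedAddCommGroup E]
    [NormedSpace 𝕜 E] (p : ℝ) (x : ℕ → E) : ℝ≥0∞ :=
  ⨆ (φ : E →L[𝕜] 𝕜) (_ : ‖φ‖ ≤ 1), (∑' j, ‖φ (x j)‖ₑ ^ p) ^ (1 / p)

section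

variable {𝕜 : Type*} [RCLike 𝕜] {n : ℕ} {E : Fin n → Type*} [∀ i, NormedAddCommGroup (E i)]
  [∀ i, NormedSpace 𝕜 (E i)] {F : Type*} [NormedAddCommGroup F] [NormedSpace 𝕜 F]

/-- `T` is `k`-absolutely `p`-summing: there is `C ≥ 0` such that
`(∑_j ‖T(a_1,…,a_{k-1},x_j,a_{k+1},…,a_n)‖^p)^{1/p} ≤ C ‖(x_j)‖_{w,p} ∏_{i ≠ k} ‖a_i‖` for all
`a_i ∈ E_i` (`i ≠ k`) and all weakly `p`-summable sequences `(x_j)` in `E_k`. -/
def IsAbsSummingAt (p : ℝ) (k : Fin n) (T : ContinuousMultilinearMap 𝕜 E F) : Prop :=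
  ∃ C : ℝ≥0, ∀ (a : ∀ i, E i) (x : ℕ → E k), weakNorm 𝕜 p x < ∞ →
    (∑' j, ‖T (Function.update a k (x j))‖ₑ ^ p) ^ (1 / p) ≤
      C * weakNorm 𝕜 p x * ∏ i ∈ Finset.univ.erase k, ‖a i‖ₑ

/-- `T` is quasi-absolutely `p`-summing: `k`-absolutely `p`-summing for every `k`. -/
def IsQuasiAbsSumming (p : ℝ) (T : ContinuousMultilinearMap 𝕜 E F) : Prop :=
  ∀ k : Fin n, IsAbsSummingAt p k T

/-- `T` is strongly multiple `p`-summing: there is `C ≥ 0` such that for all `m` and all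
`x^{(i)}_j ∈ E_i` (`j < m`), `(∑_J ‖T(x^{(1)}_{J_1},…,x^{(n)}_{J_n})‖^p)^{1/p}` is at most `C` times
the supremum over all scalar `n`-linear forms `φ` with `‖φ‖ ≤ 1` of
`(∑_J |φ(x^{(1)}_{J_1},…,x^{(n)}_{J_n})|^p)^{1/p}`. -/
def IsStronglyMultipleSumming (p : ℝ) (T : ContinuousMultilinearMap 𝕜 E F) : Prop :=
  ∃ C : ℝ≥0, ∀ (m : ℕ) (x : ∀ i, Fin m → E i),
    (∑ J : Fin n → Fin m, ‖T (fun i => x i (J i))‖ₑ ^ p) ^ (1 / p) ≤
      C * ⨆ (φ : ContinuousMultilinearMap 𝕜 E 𝕜) (_ : ‖φ‖ ≤ 1),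
        (∑ J : Fin n → Fin m, ‖φ (fun i => x i (J i))‖ₑ ^ p) ^ (1 / p)

end

section Construction

variable {𝕜 : Type*} [RCLike 𝕜]

/-- index map: `(j,k,0,0,…)` where `l = pair j k` -/
def idx {N : ℕ} (l : ℕ) (i : Fin (N + 2)) : ℕ :=
  if i = 0 then (Nat.unpair l).1 else if i = 1 then (Nat.unpair l).2 else 0

/-- the weight `max(j+1,k+1)^{-5/(4p)}` -/
noncomputable def wt (p : ℝ) (l : ℕ) : ℝ :=
  ((max (Nat.unpair l).1 (Nat.unpair l).2 : ℕ) + 1 : ℝ) ^ (-(5 / (4 * p)))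

lemma wt_nonneg (p : ℝ) (l : ℕ) : 0 ≤ wt p l := by unfold wt; positivity

lemma wt_le {N : ℕ} {p : ℝ} (hp : 1 ≤ p) (l : ℕ) (i : Fin (N + 2)) :
    wt p l ≤ ((idx l i : ℕ) + 1 : ℝ) ^ (-(5 / (4 * p))) := by
  unfold wt
  apply Real.rpow_le_rpow_of_nonpos
  · positivity
  · have : idx l i ≤ max (Nat.unpair l).1 (Nat.unpair l).2 := by
      unfold idx
      split_ifs
      · exact le_max_left _ _
      · exact le_max_right _ _
      · exact Nat.zero_le _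
    exact_mod_cast Nat.add_le_add_right this 1
  · have : 0 < 5 / (4 * p) := by positivity
    linarith

lemma wt_le_one {p : ℝ} (hp : 1 ≤ p) (l : ℕ) : wt p l ≤ 1 := by
  unfold wt
  apply Real.rpow_le_one_of_one_le_of_nonpos
  · have : (0 : ℝ) ≤ (max (Nat.unpair l).1 (Nat.unpair l).2 : ℕ) := Nat.cast_nonneg _
    linarith
  · have : 0 < 5 / (4 * p) := by positivity
    linarith

lemma wt_tendsto {p : ℝ} (hp : 1 ≤ p) : Filter.Tendsto (wt p) Filter.atTop (nhds 0) := by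
  have h1 : Filter.Tendsto (fun l : ℕ => ((max (Nat.unpair l).1 (Nat.unpair l).2 : ℕ) + 1 : ℝ))
      Filter.atTop Filter.atTop := by
    apply Filter.tendsto_atTop_mono (f := fun l : ℕ => √(l : ℝ))
    · intro l
      apply Real.sqrt_le_iff.2
      constructor
      · positivity
      · have := (Nat.pair_lt_max_add_one_sq (Nat.unpair l).1 (Nat.unpair l).2).le
        rw [Nat.pair_unpair] at this
        exact_mod_cast this
    · exact Real.tendsto_sqrt_atTop.comp tendsto_natCast_atTop_atTop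
  exact (tendsto_rpow_neg_atTop (by positivity : 0 < 5 / (4 * p))).comp h1

lemma prod_apply_le {N : ℕ} (x : Fin (N + 2) → C₀(ℕ, 𝕜)) (l : ℕ) :
    ‖∏ i, x i (idx l i)‖ ≤ ∏ i, ‖x i‖ := by
  rw [norm_prod]
  exact Finset.prod_le_prod (fun _ _ => norm_nonneg _) fun i _ => norm_apply_le _ _

lemma coord_tendsto {p : ℝ} (hp : 1 ≤ p) {N : ℕ} (x : Fin (N + 2) → C₀(ℕ, 𝕜)) :
    Filter.Tendsto (fun l => (wt p l : 𝕜) * ∏ i, x i (idx l i)) Filter.atTop (nhds 0) := by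
  apply squeeze_zero_norm (a := fun l => wt p l * ∏ i, ‖x i‖)
  · intro l
    rw [norm_mul, RCLike.norm_ofReal, abs_of_nonneg (wt_nonneg p l)]
    exact mul_le_mul_of_nonneg_left (prod_apply_le x l) (wt_nonneg p l)
  · simpa using (wt_tendsto hp).mul_const (∏ i, ‖x i‖)

/-- the diagonal operator as a multilinear map -/
noncomputable def Tlin (𝕜 : Type*) [RCLike 𝕜] {p : ℝ} (hp : 1 ≤ p) (N : ℕ) :
    MultilinearMap 𝕜 (fun _ : Fin (N + 2) => C₀(ℕ, 𝕜)) C₀(ℕ, 𝕜) where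
  toFun x := mkC0 (fun l => (wt p l : 𝕜) * ∏ i, x i (idx l i)) (coord_tendsto hp x)
  map_update_add' := by
    intro _ m i x y
    ext l
    simp only [mkC0_apply, ZeroAtInftyContinuousMap.coe_add, Pi.add_apply]
    rw [← mul_add]
    congr 1
    rw [← Finset.mul_prod_erase _ _ (Finset.mem_univ i), ← Finset.mul_prod_erase _ _ (Finset.mem_univ i),
      ← Finset.mul_prod_erase _ _ (Finset.mem_univ i)]
    simp only [Function.update_self, ZeroAtInftyContinuousMap.coe_add, Pi.add_apply]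
    rw [add_mul]
    congr 1
    · congr 1
      apply Finset.prod_congr rfl
      intro j hj
      rw [Function.update_of_ne (Finset.ne_of_mem_erase hj), Function.update_of_ne (Finset.ne_of_mem_erase hj)]
    · congr 1
      apply Finset.prod_congr rfl
      intro j hj
      rw [Function.update_of_ne (Finset.ne_of_mem_erase hj), Function.update_of_ne (Finset.ne_of_mem_erase hj)]
  map_update_smul' := by
    intro _ m i c x
    ext l
    simp only [mkC0_apply, ZeroAtInftyContinuousMap.coe_smul, Pi.smul_apply, smul_eq_mul]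
    rw [← Finset.mul_prod_erase _ _ (Finset.mem_univ i), ← Finset.mul_prod_erase _ _ (Finset.mem_univ i)]
    simp only [Function.update_self, ZeroAtInftyContinuousMap.coe_smul, Pi.smul_apply, smul_eq_mul]
    have : ∏ j ∈ Finset.univ.erase i, (Function.update m i (c • x) j) (idx l j) =
        ∏ j ∈ Finset.univ.erase i, (Function.update m i x j) (idx l j) := by
      apply Finset.prod_congr rfl
      intro j hj
      rw [Function.update_of_ne (Finset.ne_of_mem_erase hj), Function.update_of_ne (Finset.ne_of_mem_erase hj)]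
    rw [this]
    ring

lemma Tlin_apply {p : ℝ} (hp : 1 ≤ p) (N : ℕ) (x : Fin (N + 2) → C₀(ℕ, 𝕜)) (l : ℕ) :
    Tlin 𝕜 hp N x l = (wt p l : 𝕜) * ∏ i, x i (idx l i) := rfl

lemma Tlin_bound {p : ℝ} (hp : 1 ≤ p) (N : ℕ) (x : Fin (N + 2) → C₀(ℕ, 𝕜)) :
    ‖Tlin 𝕜 hp N x‖ ≤ 1 * ∏ i, ‖x i‖ := by
  apply norm_le_of _ (by positivity)
  intro l
  rw [Tlin_apply, norm_mul, RCLike.norm_ofReal, abs_of_nonneg (wt_nonneg p l)]
  exact mul_le_mul (wt_le_one hp l) (prod_apply_le x l) (norm_nonneg _) zero_le_one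

/-- the operator -/
noncomputable def T (𝕜 : Type*) [RCLike 𝕜] {p : ℝ} (hp : 1 ≤ p) (N : ℕ) :
    ContinuousMultilinearMap 𝕜 (fun _ : Fin (N + 2) => C₀(ℕ, 𝕜)) C₀(ℕ, 𝕜) :=
  (Tlin 𝕜 hp N).mkContinuous 1 (Tlin_bound hp N)

lemma T_apply {p : ℝ} (hp : 1 ≤ p) (N : ℕ) (x : Fin (N + 2) → C₀(ℕ, 𝕜)) (l : ℕ) :
    T 𝕜 hp N x l = (wt p l : 𝕜) * ∏ i, x i (idx l i) := rfl

/-- the key pointwise estimate in `[0,∞]` -/
lemma T_update_le {p : ℝ} (hp : 1 ≤ p) (N : ℕ) (k : Fin (N + 2)) (a : Fin (N + 2) → C₀(ℕ, 𝕜))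
    (x : C₀(ℕ, 𝕜)) :
    ‖T 𝕜 hp N (Function.update a k x)‖ₑ ^ p ≤
      (∏ i ∈ Finset.univ.erase k, ‖a i‖ₑ) ^ p *
        ∑' r : ℕ, ENNReal.ofReal (((r : ℝ) + 1) ^ (-(5 / 4 : ℝ))) * ‖x r‖ₑ ^ p := by
  have hp0 : 0 < p := by linarith
  set P : ℝ := ∏ i ∈ Finset.univ.erase k, ‖a i‖ with hP
  have hP0 : 0 ≤ P := by positivity
  have hPe : ∏ i ∈ Finset.univ.erase k, ‖a i‖ₑ = ENNReal.ofReal P := by
    rw [hP, ENNReal.ofReal_prod_of_nonneg (fun _ _ => norm_nonneg _)]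
    exact Finset.prod_congr rfl fun i _ => (ofReal_norm _).symm
  set Q : ℝ≥0∞ := ∑' r : ℕ, ENNReal.ofReal (((r : ℝ) + 1) ^ (-(5 / 4 : ℝ))) * ‖x r‖ₑ ^ p with hQ
  rw [hPe]
  -- it is enough to bound each coordinate
  have hcoord : ∀ l, ‖T 𝕜 hp N (Function.update a k x) l‖ₑ ≤ ENNReal.ofReal P * Q ^ (1 / p) := by
    intro l
    have h1 : ‖T 𝕜 hp N (Function.update a k x) l‖ ≤
        P * ((((idx l k : ℕ) : ℝ) + 1) ^ (-(5 / (4 * p))) * ‖x (idx l k)‖) := by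
      rw [T_apply, norm_mul, RCLike.norm_ofReal, abs_of_nonneg (wt_nonneg p l),
        ← Finset.mul_prod_erase _ _ (Finset.mem_univ k), norm_mul, Function.update_self]
      have h2 : ‖∏ j ∈ Finset.univ.erase k, (Function.update a k x j) (idx l j)‖ ≤ P := by
        rw [norm_prod]
        apply Finset.prod_le_prod (fun _ _ => norm_nonneg _)
        intro j hj
        rw [Function.update_of_ne (Finset.ne_of_mem_erase hj)]
        exact norm_apply_le _ _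
      calc wt p l * (‖x (idx l k)‖ * ‖∏ j ∈ Finset.univ.erase k, (Function.update a k x j) (idx l j)‖)
          ≤ (((idx l k : ℕ) : ℝ) + 1) ^ (-(5 / (4 * p))) * (‖x (idx l k)‖ * P) := by
            apply mul_le_mul (wt_le hp l k) _ (by positivity) (by positivity)
            exact mul_le_mul_of_nonneg_left h2 (norm_nonneg _)
        _ = _ := by ring
    have h3 : ‖T 𝕜 hp N (Function.update a k x) l‖ₑ ≤
        ENNReal.ofReal P * ENNReal.ofReal ((((idx l k : ℕ) : ℝ) + 1) ^ (-(5 / (4 * p))) * ‖x (idx l k)‖) := by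
      rw [← ENNReal.ofReal_mul hP0, ← ofReal_norm]
      exact ENNReal.ofReal_le_ofReal h1
    refine h3.trans (mul_le_mul_right ?_ _)
    rw [← ENNReal.rpow_le_rpow_iff hp0, ← ENNReal.rpow_mul, one_div, inv_mul_cancel₀ hp0.ne',
      ENNReal.rpow_one]
    have h4 : ENNReal.ofReal ((((idx l k : ℕ) : ℝ) + 1) ^ (-(5 / (4 * p))) * ‖x (idx l k)‖) ^ p =
        ENNReal.ofReal ((((idx l k : ℕ) : ℝ) + 1) ^ (-(5 / 4 : ℝ))) * ‖x (idx l k)‖ₑ ^ p := by
      rw [ENNReal.ofReal_mul (by positivity), ENNReal.mul_rpow_of_nonneg _ _ hp0.le,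
        ofReal_norm, ENNReal.ofReal_rpow_of_nonneg (by positivity) hp0.le,
        ← Real.rpow_mul (by positivity)]
      congr 3
      field_simp
    rw [h4, hQ]
    exact ENNReal.le_tsum (f := fun r : ℕ => ENNReal.ofReal (((r : ℝ) + 1) ^ (-(5 / 4 : ℝ))) * ‖x r‖ₑ ^ p)
      (idx l k)
  have hmain : ‖T 𝕜 hp N (Function.update a k x)‖ₑ ≤ ENNReal.ofReal P * Q ^ (1 / p) := by
    rcases eq_or_ne (ENNReal.ofReal P * Q ^ (1 / p)) ∞ with htop | htop
    · rw [htop]; exact le_top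
    · rw [← ofReal_norm, ← ENNReal.ofReal_toReal htop]
      apply ENNReal.ofReal_le_ofReal
      apply norm_le_of _ ENNReal.toReal_nonneg
      intro l
      have := ENNReal.toReal_mono htop (hcoord l)
      simpa using this
  calc ‖T 𝕜 hp N (Function.update a k x)‖ₑ ^ p ≤ (ENNReal.ofReal P * Q ^ (1 / p)) ^ p :=
        ENNReal.rpow_le_rpow hmain hp0.le
    _ = ENNReal.ofReal P ^ p * Q := by
        rw [ENNReal.mul_rpow_of_nonneg _ _ hp0.le, ← ENNReal.rpow_mul, one_div,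
          inv_mul_cancel₀ hp0.ne', ENNReal.rpow_one]

lemma zeta_ne_top : ∑' r : ℕ, ENNReal.ofReal (((r : ℝ) + 1) ^ (-(5 / 4 : ℝ))) ≠ ∞ := by
  have h : Summable fun r : ℕ => ((r : ℝ) + 1) ^ (-(5 / 4 : ℝ)) := by
    have h1 : Summable fun r : ℕ => ((r : ℝ)) ^ (-(5 / 4 : ℝ)) := Real.summable_nat_rpow.2 (by norm_num)
    have h2 := (summable_nat_add_iff 1).2 h1
    simpa using h2
  rw [← ENNReal.ofReal_tsum_of_nonneg (fun _ => by positivity) h]
  exact ENNReal.ofReal_ne_top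

lemma T_qs {p : ℝ} (hp : 1 ≤ p) (N : ℕ) : IsQuasiAbsSumming p (T 𝕜 hp N) := by
  have hp0 : 0 < p := by linarith
  intro k
  set Z : ℝ≥0∞ := ∑' r : ℕ, ENNReal.ofReal (((r : ℝ) + 1) ^ (-(5 / 4 : ℝ))) with hZ
  refine ⟨(Z ^ (1 / p)).toNNReal, ?_⟩
  intro a x _
  have hZt : Z ^ (1 / p) ≠ ∞ := ENNReal.rpow_ne_top_of_nonneg (by positivity) zeta_ne_top
  rw [ENNReal.coe_toNNReal hZt]
  set W := weakNorm 𝕜 p x with hW
  have hcoord : ∀ r : ℕ, ∑' j, ‖x j r‖ₑ ^ p ≤ W ^ p := by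
    intro r
    have h1 : (∑' j, ‖evalC0 𝕜 r (x j)‖ₑ ^ p) ^ (1 / p) ≤ W := by
      rw [hW]
      unfold weakNorm
      exact le_iSup₂_of_le (evalC0 𝕜 r) (norm_evalC0_le r) le_rfl
    have h2 := ENNReal.rpow_le_rpow h1 hp0.le
    rw [← ENNReal.rpow_mul, one_div, inv_mul_cancel₀ hp0.ne', ENNReal.rpow_one] at h2
    exact h2
  have h3 : ∑' j, ‖T 𝕜 hp N (Function.update a k (x j))‖ₑ ^ p ≤
      (∏ i ∈ Finset.univ.erase k, ‖a i‖ₑ) ^ p * (Z * W ^ p) := by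
    calc ∑' j, ‖T 𝕜 hp N (Function.update a k (x j))‖ₑ ^ p
        ≤ ∑' j, (∏ i ∈ Finset.univ.erase k, ‖a i‖ₑ) ^ p *
          ∑' r : ℕ, ENNReal.ofReal (((r : ℝ) + 1) ^ (-(5 / 4 : ℝ))) * ‖x j r‖ₑ ^ p :=
          ENNReal.tsum_le_tsum fun j => T_update_le hp N k a (x j)
      _ = (∏ i ∈ Finset.univ.erase k, ‖a i‖ₑ) ^ p *
          ∑' r : ℕ, ENNReal.ofReal (((r : ℝ) + 1) ^ (-(5 / 4 : ℝ))) * ∑' j, ‖x j r‖ₑ ^ p := by
          rw [ENNReal.tsum_mul_left, ENNReal.tsum_comm]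
          congr 1
          exact tsum_congr fun r => ENNReal.tsum_mul_left
      _ ≤ (∏ i ∈ Finset.univ.erase k, ‖a i‖ₑ) ^ p *
          ∑' r : ℕ, ENNReal.ofReal (((r : ℝ) + 1) ^ (-(5 / 4 : ℝ))) * W ^ p := by
          refine mul_le_mul_right (ENNReal.tsum_le_tsum fun r => ?_) _
          exact mul_le_mul_right (hcoord r) _
      _ = (∏ i ∈ Finset.univ.erase k, ‖a i‖ₑ) ^ p * (Z * W ^ p) := by
          rw [ENNReal.tsum_mul_right]
  calc (∑' j, ‖T 𝕜 hp N (Function.update a k (x j))‖ₑ ^ p) ^ (1 / p)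
      ≤ ((∏ i ∈ Finset.univ.erase k, ‖a i‖ₑ) ^ p * (Z * W ^ p)) ^ (1 / p) :=
        ENNReal.rpow_le_rpow h3 (by positivity)
    _ = (∏ i ∈ Finset.univ.erase k, ‖a i‖ₑ) * (Z ^ (1 / p) * W) := by
        rw [ENNReal.mul_rpow_of_nonneg _ _ (by positivity), ENNReal.mul_rpow_of_nonneg _ _ (by positivity),
          ← ENNReal.rpow_mul, ← ENNReal.rpow_mul, mul_one_div_cancel hp0.ne', ENNReal.rpow_one,
          ENNReal.rpow_one]
    _ = Z ^ (1 / p) * W * ∏ i ∈ Finset.univ.erase k, ‖a i‖ₑ := by ring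

/-- the point `(u, v, e_0, e_0, …)` -/
noncomputable def pt {N : ℕ} (u v : C₀(ℕ, 𝕜)) : Fin (N + 2) → C₀(ℕ, 𝕜) :=
  Function.update (Function.update (fun _ => unitVec 𝕜 0) 0 u) 1 v

/-- test families: `e_j` in the first two coordinates, `e_0, 0, 0, …` in the others -/
noncomputable def tst (𝕜 : Type*) [RCLike 𝕜] {N m : ℕ} (i : Fin (N + 2)) (j : Fin (m + 1)) :
    C₀(ℕ, 𝕜) :=
  if i = 0 ∨ i = 1 then unitVec 𝕜 j else if j = 0 then unitVec 𝕜 0 else 0

lemma zero_ne_one_fin {N : ℕ} : (0 : Fin (N + 2)) ≠ 1 := by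
  simp

lemma sum_test {G : Type*} [NormedAddCommGroup G] [NormedSpace 𝕜 G] {p : ℝ} (hp : 1 ≤ p) (N m : ℕ)
    (S : ContinuousMultilinearMap 𝕜 (fun _ : Fin (N + 2) => C₀(ℕ, 𝕜)) G) :
    ∑ J : Fin (N + 2) → Fin (m + 1), ‖S (fun i => tst 𝕜 i (J i))‖ₑ ^ p =
      ∑ jk : Fin (m + 1) × Fin (m + 1), ‖S (pt (unitVec 𝕜 jk.1) (unitVec 𝕜 jk.2))‖ₑ ^ p := by
  have hp0 : 0 < p := by linarith
  symm
  apply Finset.sum_of_injOn (fun (jk : Fin (m + 1) × Fin (m + 1)) (i : Fin (N + 2)) =>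
    if i = 0 then jk.1 else if i = 1 then jk.2 else 0)
  · intro a _ b _ hab
    have h0 := congrFun hab 0
    have h1 := congrFun hab 1
    simp only [if_true] at h0
    simp only [zero_ne_one_fin.symm, if_false, if_true] at h1
    exact Prod.ext h0 h1
  · intro a _
    simp
  · intro J _ hJ
    have : ∃ i, i ≠ 0 ∧ i ≠ 1 ∧ J i ≠ 0 := by
      by_contra hcon
      push Not at hcon
      apply hJ
      refine ⟨(J 0, J 1), by simp, ?_⟩
      funext i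
      by_cases hi0 : i = 0
      · simp [hi0]
      · by_cases hi1 : i = 1
        · simp [hi1]
        · simp [hi0, hi1, hcon i hi0 hi1]
    obtain ⟨i, hi0, hi1, hJi⟩ := this
    have hz : tst 𝕜 i (J i) = 0 := by simp [tst, hi0, hi1, hJi]
    rw [S.map_coord_zero i hz]
    simp [hp0]
  · intro jk _
    congr 3
    funext i
    unfold pt tst
    by_cases hi0 : i = 0
    · subst hi0
      simp
    · by_cases hi1 : i = 1
      · subst hi1
        simp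
      · simp [hi0, hi1]

lemma pt_idx {N : ℕ} (j k : ℕ) :
    ∏ i : Fin (N + 2), (pt (unitVec 𝕜 j) (unitVec 𝕜 k) : Fin (N + 2) → C₀(ℕ, 𝕜)) i
      (idx (Nat.pair j k) i) = 1 := by
  apply Finset.prod_eq_one
  intro i _
  unfold pt idx
  by_cases hi0 : i = 0
  · subst hi0
    simp
  · by_cases hi1 : i = 1
    · subst hi1
      simp
    · simp [hi0, hi1]

lemma T_pt_ge {p : ℝ} (hp : 1 ≤ p) (N m j k : ℕ) (hj : j ≤ m) (hk : k ≤ m) :
    ENNReal.ofReal (((m : ℝ) + 1) ^ (-(5 / 4 : ℝ))) ≤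
      ‖T 𝕜 hp N (pt (unitVec 𝕜 j) (unitVec 𝕜 k))‖ₑ ^ p := by
  have hp0 : 0 < p := by linarith
  have h1 : ((m : ℝ) + 1) ^ (-(5 / (4 * p))) ≤ ‖T 𝕜 hp N (pt (unitVec 𝕜 j) (unitVec 𝕜 k))‖ := by
    refine le_trans ?_ (norm_apply_le _ (Nat.pair j k))
    rw [T_apply, pt_idx, mul_one, RCLike.norm_ofReal, abs_of_nonneg (wt_nonneg p _)]
    unfold wt
    rw [Nat.unpair_pair]
    apply Real.rpow_le_rpow_of_nonpos (by positivity)
    · have : max j k ≤ m := max_le hj hk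
      exact_mod_cast Nat.add_le_add_right this 1
    · have : 0 < 5 / (4 * p) := by positivity
      linarith
  rw [← ofReal_norm, ENNReal.ofReal_rpow_of_nonneg (norm_nonneg _) hp0.le]
  apply ENNReal.ofReal_le_ofReal
  calc ((m : ℝ) + 1) ^ (-(5 / 4 : ℝ)) = (((m : ℝ) + 1) ^ (-(5 / (4 * p)))) ^ p := by
        rw [← Real.rpow_mul (by positivity)]
        congr 1
        field_simp
    _ ≤ _ := Real.rpow_le_rpow (by positivity) h1 hp0.le

lemma form_sum_le {p : ℝ} (hp : 1 ≤ p) (N m : ℕ)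
    (φ : ContinuousMultilinearMap 𝕜 (fun _ : Fin (N + 2) => C₀(ℕ, 𝕜)) 𝕜) (hφ : ‖φ‖ ≤ 1) :
    ∑ jk : Fin (m + 1) × Fin (m + 1), ‖φ (pt (unitVec 𝕜 jk.1) (unitVec 𝕜 jk.2))‖ₑ ^ p ≤
      ENNReal.ofReal (9 / 2 * √((m : ℝ) + 1)) := by
  have hp0 : 0 < p := by linarith
  have hB : ∀ u v : C₀(ℕ, 𝕜), ‖u‖ ≤ 1 → ‖v‖ ≤ 1 → ‖φ (pt u v)‖ ≤ 1 := by
    intro u v hu hv
    calc ‖φ (pt u v)‖ ≤ ‖φ‖ * ∏ i, ‖(pt u v : Fin (N + 2) → C₀(ℕ, 𝕜)) i‖ := φ.le_opNorm _
      _ ≤ 1 * 1 := by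
        apply mul_le_mul hφ _ (by positivity) zero_le_one
        apply Finset.prod_le_one (fun _ _ => norm_nonneg _)
        intro i _
        unfold pt
        by_cases hi1 : i = 1
        · subst hi1
          simpa using hv
        · rw [Function.update_of_ne hi1]
          by_cases hi0 : i = 0
          · subst hi0
            simpa using hu
          · rw [Function.update_of_ne hi0]
            exact norm_unitVec_le 0
      _ = 1 := one_mul 1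
  have hL := littlewood (fun u v : C₀(ℕ, 𝕜) => φ (pt u v)) ?_ ?_ hB (m + 1)
  · rw [Fintype.sum_prod_type]
    calc ∑ j : Fin (m + 1), ∑ k : Fin (m + 1), ‖φ (pt (unitVec 𝕜 j) (unitVec 𝕜 k))‖ₑ ^ p
        ≤ ∑ j : Fin (m + 1), ∑ k : Fin (m + 1), ENNReal.ofReal ‖φ (pt (unitVec 𝕜 j) (unitVec 𝕜 k))‖ := by
          apply Finset.sum_le_sum
          intro j _
          apply Finset.sum_le_sum
          intro k _
          rw [ofReal_norm]
          have h1 : ‖φ (pt (unitVec 𝕜 j) (unitVec 𝕜 k))‖ₑ ≤ 1 := by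
            rw [← ofReal_norm, ← ENNReal.ofReal_one]
            exact ENNReal.ofReal_le_ofReal (hB _ _ (norm_unitVec_le _) (norm_unitVec_le _))
          calc ‖φ (pt (unitVec 𝕜 j) (unitVec 𝕜 k))‖ₑ ^ p ≤
              ‖φ (pt (unitVec 𝕜 j) (unitVec 𝕜 k))‖ₑ ^ (1 : ℝ) :=
                ENNReal.rpow_le_rpow_of_exponent_ge h1 hp
            _ = _ := ENNReal.rpow_one _
      _ = ENNReal.ofReal (∑ j ∈ Finset.range (m + 1), ∑ k ∈ Finset.range (m + 1),
            ‖φ (pt (unitVec 𝕜 j) (unitVec 𝕜 k))‖) := by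
          rw [ENNReal.ofReal_sum_of_nonneg (fun _ _ => by positivity)]
          rw [← Fin.sum_univ_eq_sum_range (fun j => ENNReal.ofReal (∑ k ∈ Finset.range (m + 1),
            ‖φ (pt (unitVec 𝕜 j) (unitVec 𝕜 k))‖))]
          apply Finset.sum_congr rfl
          intro j _
          rw [ENNReal.ofReal_sum_of_nonneg (fun _ _ => by positivity)]
          rw [← Fin.sum_univ_eq_sum_range (fun k => ENNReal.ofReal
            ‖φ (pt (unitVec 𝕜 j) (unitVec 𝕜 k))‖)]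
      _ ≤ _ := by
          apply ENNReal.ofReal_le_ofReal
          have := hL
          push_cast at this
          exact this
  · intro v s c
    have h1 : ∀ u : C₀(ℕ, 𝕜), φ (pt u v) =
        φ.toContinuousLinearMap (Function.update (fun _ => unitVec 𝕜 0) 1 v) 0 u := by
      intro u
      unfold pt
      rw [Function.update_comm zero_ne_one_fin]
      rfl
    simp only [h1, map_sum, map_smul, smul_eq_mul]
  · intro u s c
    have h1 : ∀ v : C₀(ℕ, 𝕜), φ (pt u v) =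
        φ.toContinuousLinearMap (Function.update (fun _ => unitVec 𝕜 0) 0 u) 1 v := by
      intro v
      rfl
    simp only [h1, map_sum, map_smul, smul_eq_mul]

lemma T_not_sm {p : ℝ} (hp : 1 ≤ p) (N : ℕ) : ¬ IsStronglyMultipleSumming p (T 𝕜 hp N) := by
  have hp0 : 0 < p := by linarith
  rintro ⟨C, hC⟩
  have h1 : ∀ m : ℕ, ((m : ℝ) + 1) ^ (3 / 4 : ℝ) ≤ (C : ℝ) ^ p * (9 / 2 * √((m : ℝ) + 1)) := by
    intro m
    have h2 := hC (m + 1) (fun i => tst 𝕜 i)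
    rw [sum_test hp N m (T 𝕜 hp N)] at h2
    have h3 : (⨆ (φ : ContinuousMultilinearMap 𝕜 (fun _ : Fin (N + 2) => C₀(ℕ, 𝕜)) 𝕜) (_ : ‖φ‖ ≤ 1),
        (∑ J : Fin (N + 2) → Fin (m + 1), ‖φ (fun i => tst 𝕜 i (J i))‖ₑ ^ p) ^ (1 / p)) ≤
        (ENNReal.ofReal (9 / 2 * √((m : ℝ) + 1))) ^ (1 / p) := by
      apply iSup₂_le
      intro φ hφ
      rw [sum_test hp N m φ]
      exact ENNReal.rpow_le_rpow (form_sum_le hp N m φ hφ) (by positivity)
    have h4 : ENNReal.ofReal (((m : ℝ) + 1) ^ (3 / 4 : ℝ)) ≤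
        ∑ jk : Fin (m + 1) × Fin (m + 1),
          ‖T 𝕜 hp N (pt (unitVec 𝕜 jk.1) (unitVec 𝕜 jk.2))‖ₑ ^ p := by
      calc ENNReal.ofReal (((m : ℝ) + 1) ^ (3 / 4 : ℝ)) =
          ∑ _jk : Fin (m + 1) × Fin (m + 1), ENNReal.ofReal (((m : ℝ) + 1) ^ (-(5 / 4 : ℝ))) := by
            rw [Finset.sum_const, Finset.card_univ, Fintype.card_prod, Fintype.card_fin,
              nsmul_eq_mul, ← ENNReal.ofReal_natCast, ← ENNReal.ofReal_mul (by positivity)]
            congr 1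
            push_cast
            have h5 : ((m : ℝ) + 1) * ((m : ℝ) + 1) = ((m : ℝ) + 1) ^ (2 : ℝ) := by
              rw [Real.rpow_two]; ring
            rw [h5, ← Real.rpow_add (by positivity)]
            norm_num
        _ ≤ _ := Finset.sum_le_sum fun jk _ => T_pt_ge hp N m _ _ (by omega) (by omega)
    have h5 : (ENNReal.ofReal (((m : ℝ) + 1) ^ (3 / 4 : ℝ))) ^ (1 / p) ≤
        C * (ENNReal.ofReal (9 / 2 * √((m : ℝ) + 1))) ^ (1 / p) :=
      (ENNReal.rpow_le_rpow h4 (by positivity)).trans (h2.trans (mul_le_mul_right h3 _))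
    have h6 := ENNReal.rpow_le_rpow h5 hp0.le
    rw [ENNReal.mul_rpow_of_nonneg _ _ hp0.le, ← ENNReal.rpow_mul, ← ENNReal.rpow_mul, one_div,
      inv_mul_cancel₀ hp0.ne', ENNReal.rpow_one, ENNReal.rpow_one] at h6
    have h7 : (C : ℝ≥0∞) ^ p = ENNReal.ofReal ((C : ℝ) ^ p) := by
      rw [← ENNReal.ofReal_rpow_of_nonneg C.coe_nonneg hp0.le, ENNReal.ofReal_coe_nnreal]
    rw [h7, ← ENNReal.ofReal_mul (by positivity)] at h6
    exact (ENNReal.ofReal_le_ofReal_iff (by positivity)).1 h6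
  have h2 : Filter.Tendsto (fun m : ℕ => ((m : ℝ) + 1) ^ (1 / 4 : ℝ)) Filter.atTop Filter.atTop :=
    (tendsto_rpow_atTop (by norm_num)).comp
      (Filter.tendsto_atTop_add_const_right _ _ tendsto_natCast_atTop_atTop)
  obtain ⟨m, hm⟩ := (h2.eventually (Filter.eventually_gt_atTop ((C : ℝ) ^ p * (9 / 2)))).exists
  have h3 := h1 m
  have h4 : ((m : ℝ) + 1) ^ (3 / 4 : ℝ) = ((m : ℝ) + 1) ^ (1 / 4 : ℝ) * √((m : ℝ) + 1) := by
    rw [Real.sqrt_eq_rpow, ← Real.rpow_add (by positivity)]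
    norm_num
  rw [h4] at h3
  have h5 : 0 < √((m : ℝ) + 1) := Real.sqrt_pos.2 (by positivity)
  nlinarith

end Construction

/-- For both scalar fields, every real `p ≥ 1` and every `n ≥ 2` there is a bounded `n`-linear
`T : c₀ × ⋯ × c₀ → c₀` that is quasi-absolutely `p`-summing but not strongly multiple
`p`-summing. -/
theorem result (𝕜 : Type*) [RCLike 𝕜] (p : ℝ) (hp : 1 ≤ p) (n : ℕ) (hn : 2 ≤ n) :
    ∃ T : ContinuousMultilinearMap 𝕜 (fun _ : Fin n => C₀(ℕ, 𝕜)) C₀(ℕ, 𝕜),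
      IsQuasiAbsSumming p T ∧ ¬ IsStronglyMultipleSumming p T := by
  obtain ⟨N, rfl⟩ := Nat.exists_eq_add_of_le' hn
  exact ⟨T 𝕜 hp N, T_qs hp N, T_not_sm hp N⟩

end Pool.Agent.Results.MP_3dc8bf_an.QsNotSm
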